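import Pool.Agent.H31.GK.FGZ
import Pool.Agent.H31.GK.BSM
import Pool.Agent.H23.GHK.TRF
import Pool.Agent.H55.GHY.HSD

/-!
Board ghk (MP_52e316_nt): the norm of the averages.
-/

set_option autoImplicit false

namespace Pool.Agent.H31.GK

open MeasureTheory Filter Pool.Agent.H34.GM Pool.Agent.H34.GZ Pool.Agent.H34.GU Pool.Agent.H34.GA
open Pool.Agent.H23.GHK (tF ip ivf_of ip_tr2)

variable {m N : ℕ}

/-- the measure on the domain times the vectors -/
noncomputable def nuD (m N : ℕ) [MeasurableSpace (VN m N)] (D : Set (V m)) :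
    Measure (V m × VN m N) := ((hm m).restrict D).prod Measure.count

section

variable [MeasurableSpace (VN m N)] [MeasurableSingletonClass (VN m N)] [NeZero N]

theorem hm_sf : SFinite (hm m) := by unfold hm; infer_instance

theorem nu_lint {S : Set (V m)} {G : V m × VN m N → ENNReal} (hG : Measurable G) :
    ∫⁻ p, G p ∂(nuD m N S) = ∑ x, ∫⁻ z in S, G (z, x) ∂(hm m) := by
  have hsf : SFinite (hm m) := hm_sf
  unfold nuD
  rw [Pool.Agent.H55.GHY.hsd_lint _ _ hG, lintegral_finsetSum]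
  intro x _
  exact hG.comp measurable_prodMk_right

theorem nu_int {D : Set (V m)} {h : V m × VN m N → ℂ} (hi : Integrable h (nuD m N D)) :
    ∫ p, h p ∂(nuD m N D) = ∑ x, ∫ z in D, h (z, x) ∂(hm m) := by
  have hsf : SFinite (hm m) := hm_sf
  unfold nuD at hi ⊢
  rw [integral_prod_symm _ hi, integral_count]

theorem nu_fin {D : Set (V m)} (hD : IsFiniteMeasure ((hm m).restrict D)) :
    IsFiniteMeasure (nuD m N D) := by
  unfold nuD
  infer_instance

theorem nu_eq {D : Set (V m)} :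
    nuD m N D = ((hm m).prod (Measure.count : Measure (VN m N))).restrict (D ×ˢ Set.univ) := by
  have hsf : SFinite (hm m) := hm_sf
  unfold nuD
  rw [← Measure.prod_restrict, Measure.restrict_univ]

theorem nu_ae {D : Set (V m)} (hD : MeasurableSet D) : ∀ᵐ p ∂(nuD m N D), p.1 ∈ D := by
  rw [nu_eq]
  filter_upwards [ae_restrict_mem (hD.prod MeasurableSet.univ)] with p hp
  exact hp.1

omit [MeasurableSpace (VN m N)] [MeasurableSingletonClass (VN m N)] [NeZero N] in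
theorem uav_conj {ρ : Measure (V m)} {f g : V m × (V m × VN m N) → ℂ} (y x : V m × VN m N) :
    ‖Uav ρ f g (y, x)‖ = ‖∫ z, (starRingEnd ℂ) (f (z, x)) * g (z, y) ∂ρ‖ := by
  unfold Uav
  have h1 : ∫ z, f (z, x) * (starRingEnd ℂ) (g (z, y)) ∂ρ =
      (starRingEnd ℂ) (∫ z, (starRingEnd ℂ) (f (z, x)) * g (z, y) ∂ρ) := by
    rw [← integral_conj]
    refine integral_congr_ae (Eventually.of_forall fun z => ?_)
    simp only [map_mul, Complex.conj_conj]
  simp only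
  rw [h1, RCLike.norm_conj]

/-- the norm of the averages with the convolutions -/
theorem uav_rr (hMSR : T_MSR) (hRRN : T_RRN) (hGHR : T_GHR) {T : ℕ → Finset (ZM m)}
    {D : Set (V m)} (hS : SysZ m N T D) {s : ℝ} (hs0 : 0 < s) (hs1 : s ≤ 1 / (2 * m))
    (hBm : MeasurableSet (Bl m s)) (hBd : ∀ z ∈ Bl m s, (mt z).det ≠ 0)
    (hBf : hm m (Bl m s) < ⊤) {F : Mat m → VN m N → ℂ} {lam : ℕ → ℂ} (hF : HecA m N T F lam)
    {Φ : Mat m → ℂ} (hΦ : Tg m Φ) :
    ∫⁻ p, ENNReal.ofReal (‖Uav ((hm m).restrict (Bl m s)) (fz F) (gz Φ F) p‖ ^ 2)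
      ∂((nuD m N D).prod (nuD m N D)) ≤
    (L1 Φ 1) ^ 2 * ∫⁻ p, ENNReal.ofReal (‖Uav ((hm m).restrict (Bl m s)) (fz F) (fz F) p‖ ^ 2)
      ∂((nuD m N D).prod (nuD m N D)) := by
  have hsf : SFinite (hm m) := hm_sf
  have hm1 := hS.one_le
  have hsfn : SFinite (nuD m N D) := by unfold nuD; infer_instance
  have hDdet : ∀ z ∈ D, (mt z).det ≠ 0 := fun z hz => sh_det hm1 (hS.dom.shell z hz).1
  obtain ⟨B, hB⟩ := hF.bdd
  have hB' : ∀ g x, g.det ≠ 0 → ‖F g x‖ ≤ max B 0 := fun g x hg => (hB g x hg).trans (le_max_left _ _)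
  have hB0 : (0 : ℝ) ≤ max B 0 := le_max_right _ _
  have hfm : Measurable (fz F) := fz_meas hF.cont
  have hgm : Measurable (gz Φ F) := gz_meas hMSR hΦ.cont hF.cont
  have m1 : Measurable (Uav ((hm m).restrict (Bl m s)) (fz F) (gz Φ F)) := uav_meas _ hfm hgm
  have m2 : Measurable (Uav ((hm m).restrict (Bl m s)) (fz F) (fz F)) := uav_meas _ hfm hfm
  have m1' : Measurable (fun p => ENNReal.ofReal
      (‖Uav ((hm m).restrict (Bl m s)) (fz F) (gz Φ F) p‖ ^ 2)) := by fun_prop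
  have m2' : Measurable (fun p => ENNReal.ofReal
      (‖Uav ((hm m).restrict (Bl m s)) (fz F) (fz F) p‖ ^ 2)) := by fun_prop
  rw [lintegral_prod_symm _ m1'.aemeasurable, lintegral_prod_symm _ m2'.aemeasurable,
    ← lintegral_const_mul _ m2'.lintegral_prod_left']
  refine lintegral_mono_ae ?_
  filter_upwards [nu_ae hS.dom.meas] with x hx
  -- the coefficient function
  obtain ⟨c, hc⟩ : ∃ c : V m → ℂ, ∀ z, c z = (starRingEnd ℂ) (fz F (z, x)) := ⟨_, fun _ => rfl⟩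
  have hcm : Measurable c := by
    have h1 : c = fun z => (starRingEnd ℂ) (fz F (z, x)) := funext hc
    rw [h1]
    exact Complex.continuous_conj.measurable.comp
      (hfm.comp (measurable_prodMk_right : Measurable fun z : V m => (z, x)))
  have hcb : ∀ z, ‖c z‖ ≤ max B 0 := fun z => by
    rw [hc, RCLike.norm_conj]
    exact fz_bd hB0 hB' _
  obtain ⟨hG, hR⟩ := hGHR m N T D hS s hs0 hs1 F lam hF c (max B 0) hcm hcb
  obtain ⟨G, hGd⟩ : ∃ G : Mat m → VN m N → ℂ, G = fun g x => ∫ z in Bl m s, c z *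
      F (g * mt z) x ∂(hm m) := ⟨_, rfl⟩
  rw [← hGd] at hG hR
  have e1 : ∀ y : V m × VN m N, y.1 ∈ D →
      ‖Uav ((hm m).restrict (Bl m s)) (fz F) (gz Φ F) (y, x)‖ = ‖Rr Φ 1 G (mt y.1) y.2‖ := by
    intro y hy
    rw [uav_conj, hR Φ hΦ _ _ (hDdet _ hy)]
    congr 1
    refine setIntegral_congr_fun hBm fun z hz => ?_
    rw [← hc, show y = (y.1, y.2) from rfl, gz_of hm1 hMSR (hBd z hz) (hDdet _ hy)]
  have e2 : ∀ y : V m × VN m N, y.1 ∈ D →
      ‖Uav ((hm m).restrict (Bl m s)) (fz F) (fz F) (y, x)‖ = ‖G (mt y.1) y.2‖ := by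
    intro y hy
    rw [uav_conj, hGd]
    congr 1
    refine setIntegral_congr_fun hBm fun z hz => ?_
    rw [← hc, show y = (y.1, y.2) from rfl, fz_of (hBd z hz) (hDdet _ hy)]
  have e3 : ∫⁻ y, ENNReal.ofReal
      (‖Uav ((hm m).restrict (Bl m s)) (fz F) (gz Φ F) (y, x)‖ ^ 2) ∂(nuD m N D) =
      ∑ x', ∫⁻ g in D, ENNReal.ofReal (‖Rr Φ 1 G (mt g) x'‖ ^ 2) ∂(hm m) := by
    have mx : Measurable (fun y : V m × VN m N => ENNReal.ofReal
        (‖Uav ((hm m).restrict (Bl m s)) (fz F) (gz Φ F) (y, x)‖ ^ 2)) :=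
      m1'.comp (measurable_prodMk_right : Measurable fun y : V m × VN m N => (y, x))
    rw [nu_lint mx]
    refine Finset.sum_congr rfl fun x' _ => setLIntegral_congr_fun hS.dom.meas fun g hg => ?_
    rw [e1 (g, x') hg]
  have e4 : ∫⁻ y, ENNReal.ofReal
      (‖Uav ((hm m).restrict (Bl m s)) (fz F) (fz F) (y, x)‖ ^ 2) ∂(nuD m N D) =
      ∑ x', ∫⁻ g in D, ENNReal.ofReal (‖G (mt g) x'‖ ^ 2) ∂(hm m) := by
    have mx : Measurable (fun y : V m × VN m N => ENNReal.ofReal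
        (‖Uav ((hm m).restrict (Bl m s)) (fz F) (fz F) (y, x)‖ ^ 2)) :=
      m2'.comp (measurable_prodMk_right : Measurable fun y : V m × VN m N => (y, x))
    rw [nu_lint mx]
    refine Finset.sum_congr rfl fun x' _ => setLIntegral_congr_fun hS.dom.meas fun g hg => ?_
    rw [e2 (g, x') hg]
  rw [e3, e4]
  exact hRRN m N T D hS G lam hG Φ hΦ 1 one_pos

/-- the norm of the averages -/
theorem uav_ff (hVLM : T_VLM) (hRTI : T_RTI) (hALU : T_ALU) (hQIR : T_QIR)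
    {T : ℕ → Finset (ZM m)} {D : Set (V m)} (hS : SysZ m N T D) {r : ℝ} (hr0 : 0 < r)
    (hr1 : r ≤ 1 / (2 * m)) (hBm : MeasurableSet (Bl m (r / (4 * m))))
    (hBd : ∀ z ∈ Bl m (r / (4 * m)), (mt z).det ≠ 0) (hBf : hm m (Bl m (r / (4 * m))) < ⊤)
    {F : Mat m → VN m N → ℂ} {lam : ℕ → ℂ} (hF : HecA m N T F lam) :
    ∫⁻ p, ENNReal.ofReal (‖Uav ((hm m).restrict (Bl m (r / (4 * m)))) (fz F) (fz F) p‖ ^ 2)
      ∂((nuD m N D).prod (nuD m N D)) ≤
    ENNReal.ofReal ((hm m (Bl m (r / (4 * m)))).toReal * Hr r D F) := by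
  have hsf : SFinite (hm m) := hm_sf
  have hm1 := hS.one_le
  have hfD : IsFiniteMeasure ((hm m).restrict D) := Pool.Agent.H90.GA.fin_D hVLM hm1 hS.dom
  have hfn : IsFiniteMeasure (nuD m N D) := nu_fin hfD
  obtain ⟨ρ, hρ⟩ : ∃ ρ : Measure (V m), ρ = (hm m).restrict (Bl m (r / (4 * m))) := ⟨_, rfl⟩
  have hfρ : IsFiniteMeasure ρ := by
    rw [hρ]
    exact ⟨by rw [Measure.restrict_apply_univ]; exact hBf⟩
  have hDdet : ∀ z ∈ D, (mt z).det ≠ 0 := fun z hz => sh_det hm1 (hS.dom.shell z hz).1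
  obtain ⟨B, hB⟩ := hF.bdd
  have hB' : ∀ g x, g.det ≠ 0 → ‖F g x‖ ≤ max B 0 := fun g x hg => (hB g x hg).trans (le_max_left _ _)
  have hB0 : (0 : ℝ) ≤ max B 0 := le_max_right _ _
  have hfm : Measurable (fz F) := fz_meas hF.cont
  have hfb : ∀ p, ‖fz F p‖ ≤ max B 0 := fun p => fz_bd hB0 hB' p
  have hQ := hQIR m N T D hS r hr0 hr1 F lam hF
  rw [← hρ] at hQ ⊢
  have m2 : Measurable (Uav ρ (fz F) (fz F)) := uav_meas _ hfm hfm
  have hUL : MemLp (Uav ρ (fz F) (fz F)) 2 ((nuD m N D).prod (nuD m N D)) :=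
    MemLp.of_bound m2.aestronglyMeasurable _ (Eventually.of_forall (uav_bdd ρ hfb hfb))
  have h1 : Integrable (fun p => ‖Uav ρ (fz F) (fz F) p‖ ^ 2) ((nuD m N D).prod (nuD m N D)) :=
    (memLp_two_iff_integrable_sq_norm hUL.1).1 hUL
  rw [← ofReal_integral_eq_lintegral_ofReal h1 (Eventually.of_forall fun x => by positivity)]
  refine ENNReal.ofReal_le_ofReal (le_trans ?_ hQ)
  -- the scalar products
  have hI : ∀ z ∈ Bl m (r / (4 * m)), ∀ w ∈ Bl m (r / (4 * m)),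
      ∫ x, fz F (z, x) * (starRingEnd ℂ) (fz F (w, x)) ∂(nuD m N D) =
        ipz D F F ((mt w)⁻¹ * mt z) := by
    intro z hz w hw
    have hi : Integrable (fun x => fz F (z, x) * (starRingEnd ℂ) (fz F (w, x))) (nuD m N D) := by
      refine int_bdd (M := max B 0 * max B 0) ?_ ?_
      · exact (hfm.comp measurable_prodMk_left).mul
          (Complex.continuous_conj.measurable.comp (hfm.comp measurable_prodMk_left))
      · intro x
        rw [norm_mul, RCLike.norm_conj]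
        exact mul_le_mul (hfb _) (hfb _) (norm_nonneg _) hB0
    rw [nu_int hi]
    have h2 := ip_tr2 hVLM hRTI hALU hS (ivf_of hF) (ivf_of hF) (hBd w hw) (hBd z hz)
    unfold ip tF at h2
    unfold ipz
    refine Eq.trans ?_ h2
    refine Finset.sum_congr rfl fun x _ => setIntegral_congr_fun hS.dom.meas fun g hg => ?_
    rw [fz_of (hBd z hz) (hDdet g hg), fz_of (hBd w hw) (hDdet g hg)]
  have h2 : ((∫ p, ‖Uav ρ (fz F) (fz F) p‖ ^ 2 ∂((nuD m N D).prod (nuD m N D)) : ℝ) : ℂ) =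
      ∫ p, Uav ρ (fz F) (fz F) p * (starRingEnd ℂ) (Uav ρ (fz F) (fz F) p)
        ∂((nuD m N D).prod (nuD m N D)) := by
    rw [← integral_complex_ofReal]
    refine integral_congr_ae (Eventually.of_forall fun p => ?_)
    simp only
    rw [Complex.mul_conj, Complex.normSq_eq_norm_sq]
  have h3 : ((∫ p, ‖Uav ρ (fz F) (fz F) p‖ ^ 2 ∂((nuD m N D).prod (nuD m N D)) : ℝ) : ℂ) =
      ((∫ p, ‖ipz D F F ((mt p.2)⁻¹ * mt p.1)‖ ^ 2 ∂(ρ.prod ρ) : ℝ) : ℂ) := by
    rw [h2, uav_inner (nuD m N D) (nuD m N D) ρ hfm hfm hfm hfm hfb hfb hfb hfb,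
      ← integral_complex_ofReal]
    refine integral_congr_ae ?_
    have hae : ∀ᵐ q ∂(ρ.prod ρ), q.1 ∈ Bl m (r / (4 * m)) ∧ q.2 ∈ Bl m (r / (4 * m)) := by
      rw [hρ, Measure.prod_restrict]
      filter_upwards [ae_restrict_mem (hBm.prod hBm)] with q hq
      exact hq
    filter_upwards [hae] with q hq
    have h4 := hI q.1 hq.1 q.2 hq.2
    have h5 : ∫ y, (starRingEnd ℂ) (fz F (q.1, y)) * fz F (q.2, y) ∂(nuD m N D) =
        (starRingEnd ℂ) (ipz D F F ((mt q.2)⁻¹ * mt q.1)) := by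
      rw [← h4, ← integral_conj]
      refine integral_congr_ae (Eventually.of_forall fun y => ?_)
      simp only [map_mul, Complex.conj_conj]
    rw [h4, h5, mul_comm, Complex.mul_conj, Complex.normSq_eq_norm_sq]
  have h6 : ∫ p, ‖Uav ρ (fz F) (fz F) p‖ ^ 2 ∂((nuD m N D).prod (nuD m N D)) =
      ∫ p, ‖ipz D F F ((mt p.2)⁻¹ * mt p.1)‖ ^ 2 ∂(ρ.prod ρ) := by exact_mod_cast h3
  exact h6.le

end

end Pool.Agent.H31.GK
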