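import Pool.Agent.H34.GM.BES

/-!
Board ghk (MP_52e316_nt): Bessel's inequality for functions of two variables which are averages of
products (abstract part of the row LSK).
-/

set_option autoImplicit false

namespace Pool.Agent.H31.GK

open MeasureTheory ENNReal Pool.Agent.H34.GM

section ortho

variable {X : Type} [MeasurableSpace X]

/-- Bessel's inequality for an orthogonal family -/
theorem bessel_orth {ν : Measure X} {ι : Type} [Fintype ι] [DecidableEq ι] {f : ι → X → ℂ}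
    (hf : ∀ i, MemLp (f i) 2 ν) (q : ι → ℝ) (hq0 : ∀ i, 0 < q i)
    (ho : ∀ i j, i ≠ j → ∫ x, f i x * (starRingEnd ℂ) (f j x) ∂ν = 0)
    (hq : ∀ i, ∫⁻ x, ENNReal.ofReal (‖f i x‖ ^ 2) ∂ν ≤ ENNReal.ofReal (q i))
    {H : X → ℂ} (hH : MemLp H 2 ν) :
    ∑ i, ENNReal.ofReal (‖∫ z, H z * f i z ∂ν‖ ^ 2 / q i) ≤
      ∫⁻ z, ENNReal.ofReal (‖H z‖ ^ 2) ∂ν := by
  have hG : MemLp (fun x => (starRingEnd ℂ) (H x)) 2 ν := by
    refine hH.norm.of_le_mul (c := 1) ?_ ?_
    · exact (continuous_star.comp_aestronglyMeasurable hH.1 :)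
    · exact Filter.Eventually.of_forall fun x => by simp
  obtain ⟨v, hv⟩ : ∃ v : ι → Lp ℂ 2 ν, v = fun i => (hf i).toLp (f i) := ⟨_, rfl⟩
  have hvq : ∀ i, ‖v i‖ ^ 2 ≤ q i := by
    intro i
    have h1 := bes_lint (hf i)
    have h2 := hq i
    rw [← h1, ENNReal.ofReal_le_ofReal_iff (hq0 i).le] at h2
    rw [hv]
    exact h2
  have horth : ∀ i j, i ≠ j → (inner ℂ (v i) (v j) : ℂ) = 0 := by
    intro i j hij
    rw [L2.inner_def]
    have : ∫ x, (inner ℂ ((v i : X → ℂ) x) ((v j : X → ℂ) x) : ℂ) ∂ν =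
        ∫ x, f j x * (starRingEnd ℂ) (f i x) ∂ν := by
      refine integral_congr_ae ?_
      rw [hv]
      filter_upwards [(hf i).coeFn_toLp, (hf j).coeFn_toLp] with x hx hy
      simp only [hx, hy, RCLike.inner_apply]
    rw [this, ho j i (fun h => hij h.symm)]
  obtain ⟨w, hw⟩ : ∃ w : Lp ℂ 2 ν, w = hG.toLp _ := ⟨_, rfl⟩
  obtain ⟨a, ha⟩ : ∃ a : ι → ℂ, ∀ i, a i = (inner ℂ (v i) w : ℂ) := ⟨_, fun _ => rfl⟩
  have hin : ∀ i, ‖a i‖ = ‖∫ z, H z * f i z ∂ν‖ := by
    intro i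
    rw [ha, L2.inner_def]
    have : ∫ x, (inner ℂ ((v i : X → ℂ) x) ((w : X → ℂ) x) : ℂ) ∂ν =
        (starRingEnd ℂ) (∫ x, H x * f i x ∂ν) := by
      rw [← integral_conj]
      refine integral_congr_ae ?_
      rw [hv, hw]
      filter_upwards [(hf i).coeFn_toLp, hG.coeFn_toLp] with x hx hy
      simp only [hx, hy, RCLike.inner_apply, map_mul]
    rw [this, RCLike.norm_conj]
  obtain ⟨T, hT⟩ : ∃ T : ℝ, T = ∑ i, ‖a i‖ ^ 2 / q i := ⟨_, rfl⟩
  have hT0 : 0 ≤ T := by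
    rw [hT]
    exact Finset.sum_nonneg fun i _ => div_nonneg (by positivity) (hq0 i).le
  -- the test vector
  obtain ⟨u, hu⟩ : ∃ u : Lp ℂ 2 ν, u = ∑ i, (a i / (q i : ℂ)) • v i := ⟨_, rfl⟩
  have hqC : ∀ i, (q i : ℂ) ≠ 0 := fun i => by exact_mod_cast (hq0 i).ne'
  have huw : (inner ℂ u w : ℂ) = (T : ℂ) := by
    rw [hu, sum_inner, hT]
    push_cast
    refine Finset.sum_congr rfl fun i _ => ?_
    rw [inner_smul_left, ← ha, map_div₀, Complex.conj_ofReal, div_mul_eq_mul_div, mul_comm,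
      Complex.mul_conj, Complex.normSq_eq_norm_sq]
    push_cast
    rfl
  have huu : ‖u‖ ^ 2 ≤ T := by
    have h1 : ((‖u‖ ^ 2 : ℝ) : ℂ) = ∑ i, ((‖a i‖ ^ 2 / q i ^ 2 * ‖v i‖ ^ 2 : ℝ) : ℂ) := by
      have h2 : (inner ℂ u u : ℂ) = ((‖u‖ ^ 2 : ℝ) : ℂ) := by
        rw [inner_self_eq_norm_sq_to_K]
        push_cast
        rfl
      rw [← h2, hu, sum_inner]
      refine Finset.sum_congr rfl fun i _ => ?_
      rw [inner_smul_left, inner_sum, Finset.sum_eq_single i]
      · rw [inner_smul_right, inner_self_eq_norm_sq_to_K, map_div₀, Complex.conj_ofReal]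
        have h3 : (starRingEnd ℂ) (a i) * a i = ((‖a i‖ ^ 2 : ℝ) : ℂ) := by
          rw [mul_comm, Complex.mul_conj, Complex.normSq_eq_norm_sq]
        have h4 : (starRingEnd ℂ) (a i) / (q i : ℂ) * (a i / (q i : ℂ) * (‖v i‖ : ℂ) ^ 2) =
            ((starRingEnd ℂ) (a i) * a i) / (q i : ℂ) ^ 2 * (‖v i‖ : ℂ) ^ 2 := by
          have := hqC i
          field_simp
        refine Eq.trans h4 ?_
        rw [h3]
        push_cast
        ring
      · intro j _ hji
        rw [inner_smul_right, horth i j (fun h => hji h.symm), mul_zero]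
      · intro h
        exact absurd (Finset.mem_univ i) h
    have h5 : ‖u‖ ^ 2 = ∑ i, (‖a i‖ ^ 2 / q i ^ 2 * ‖v i‖ ^ 2) := by exact_mod_cast h1
    rw [h5, hT]
    refine Finset.sum_le_sum fun i _ => ?_
    have h6 := hvq i
    calc ‖a i‖ ^ 2 / q i ^ 2 * ‖v i‖ ^ 2 ≤ ‖a i‖ ^ 2 / q i ^ 2 * q i :=
          mul_le_mul_of_nonneg_left h6 (by positivity)
      _ = ‖a i‖ ^ 2 / q i := by
          have := (hq0 i).ne'
          field_simp
  have hTw : T ≤ ‖w‖ ^ 2 := by
    have h1 : T ≤ ‖u‖ * ‖w‖ := by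
      have h2 := norm_inner_le_norm (𝕜 := ℂ) u w
      rw [huw, Complex.norm_real, Real.norm_of_nonneg hT0] at h2
      exact h2
    by_contra hcon
    push Not at hcon
    have h3 : T ^ 2 ≤ ‖u‖ ^ 2 * ‖w‖ ^ 2 := by
      rw [← mul_pow]
      exact pow_le_pow_left₀ hT0 h1 2
    have h4 : T ^ 2 ≤ T * ‖w‖ ^ 2 := h3.trans (mul_le_mul_of_nonneg_right huu (by positivity))
    have hTp : 0 < T := lt_of_le_of_lt (by positivity) hcon
    nlinarith
  have e1 : ∑ i, ENNReal.ofReal (‖∫ z, H z * f i z ∂ν‖ ^ 2 / q i) = ENNReal.ofReal T := by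
    rw [hT, ENNReal.ofReal_sum_of_nonneg fun i _ => div_nonneg (by positivity) (hq0 i).le]
    refine Finset.sum_congr rfl fun i _ => ?_
    rw [hin]
  rw [e1]
  refine (ENNReal.ofReal_le_ofReal hTw).trans ?_
  rw [hw, bes_lint hG]
  simp

end ortho

section aver

variable {X Y Z : Type} [MeasurableSpace X] [MeasurableSpace Y] [MeasurableSpace Z]

/-- bounded measurable functions on finite measure spaces are integrable -/
theorem int_bdd {α : Type} [MeasurableSpace α] {μ : Measure α} [IsFiniteMeasure μ] {f : α → ℂ}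
    (hf : Measurable f) {M : ℝ} (hM : ∀ x, ‖f x‖ ≤ M) : Integrable f μ :=
  Integrable.of_bound hf.aestronglyMeasurable M (Filter.Eventually.of_forall hM)

/-- the average of the products -/
noncomputable def Uav (ρ : Measure Z) (f : Z × X → ℂ) (g : Z × Y → ℂ) (p : Y × X) : ℂ :=
  ∫ z, f (z, p.2) * (starRingEnd ℂ) (g (z, p.1)) ∂ρ

theorem uav_meas (ρ : Measure Z) [SFinite ρ] {f : Z × X → ℂ} {g : Z × Y → ℂ} (hf : Measurable f)
    (hg : Measurable g) : Measurable (Uav ρ f g) := by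
  have h1 : Measurable (fun q : (Y × X) × Z => f (q.2, q.1.2) *
      (starRingEnd ℂ) (g (q.2, q.1.1))) := by
    have h2 : Measurable (fun q : (Y × X) × Z => f (q.2, q.1.2)) := hf.comp (by fun_prop)
    have h3 : Measurable (fun q : (Y × X) × Z => (starRingEnd ℂ) (g (q.2, q.1.1))) :=
      Complex.continuous_conj.measurable.comp (hg.comp (by fun_prop))
    exact h2.mul h3
  exact (h1.stronglyMeasurable.integral_prod_right (ν := ρ)).measurable

theorem uav_bdd (ρ : Measure Z) [IsFiniteMeasure ρ] {f : Z × X → ℂ} {g : Z × Y → ℂ} {M : ℝ}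
    (hM : ∀ p, ‖f p‖ ≤ M) (hM' : ∀ p, ‖g p‖ ≤ M) (p : Y × X) :
    ‖Uav ρ f g p‖ ≤ M * M * (ρ Set.univ).toReal := by
  unfold Uav
  refine norm_integral_le_of_norm_le_const (Filter.Eventually.of_forall fun z => ?_)
  rw [norm_mul, RCLike.norm_conj]
  exact mul_le_mul (hM _) (hM' _) (norm_nonneg _) ((norm_nonneg _).trans (hM (z, p.2)))

/-- the scalar products of the averages -/
theorem uav_inner (μ : Measure X) (ν : Measure Y) (ρ : Measure Z) [IsFiniteMeasure μ]
    [IsFiniteMeasure ν] [IsFiniteMeasure ρ] {f f' : Z × X → ℂ} {g g' : Z × Y → ℂ} {M : ℝ}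
    (hf : Measurable f) (hg : Measurable g) (hf' : Measurable f') (hg' : Measurable g')
    (h1 : ∀ p, ‖f p‖ ≤ M) (h2 : ∀ p, ‖g p‖ ≤ M) (h3 : ∀ p, ‖f' p‖ ≤ M) (h4 : ∀ p, ‖g' p‖ ≤ M) :
    ∫ p, Uav ρ f g p * (starRingEnd ℂ) (Uav ρ f' g' p) ∂(ν.prod μ) =
      ∫ q, (∫ y, (starRingEnd ℂ) (g (q.1, y)) * g' (q.2, y) ∂ν) *
        (∫ x, f (q.1, x) * (starRingEnd ℂ) (f' (q.2, x)) ∂μ) ∂(ρ.prod ρ) := by
  obtain ⟨W, hW⟩ : ∃ W : (Y × X) × (Z × Z) → ℂ, W = fun r =>
      (f (r.2.1, r.1.2) * (starRingEnd ℂ) (g (r.2.1, r.1.1))) *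
        (starRingEnd ℂ) (f' (r.2.2, r.1.2) * (starRingEnd ℂ) (g' (r.2.2, r.1.1))) := ⟨_, rfl⟩
  have hWm : Measurable W := by
    rw [hW]
    have a1 : Measurable (fun r : (Y × X) × (Z × Z) => f (r.2.1, r.1.2)) := hf.comp (by fun_prop)
    have a2 : Measurable (fun r : (Y × X) × (Z × Z) => g (r.2.1, r.1.1)) := hg.comp (by fun_prop)
    have a3 : Measurable (fun r : (Y × X) × (Z × Z) => f' (r.2.2, r.1.2)) := hf'.comp (by fun_prop)
    have a4 : Measurable (fun r : (Y × X) × (Z × Z) => g' (r.2.2, r.1.1)) := hg'.comp (by fun_prop)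
    exact (a1.mul (Complex.continuous_conj.measurable.comp a2)).mul
      (Complex.continuous_conj.measurable.comp
        (a3.mul (Complex.continuous_conj.measurable.comp a4)))
  have hWb : ∀ r, ‖W r‖ ≤ M * M * (M * M) := by
    intro r
    have hM : 0 ≤ M := (norm_nonneg _).trans (h1 (r.2.1, r.1.2))
    rw [hW]
    simp only
    rw [norm_mul, RCLike.norm_conj, norm_mul, norm_mul, RCLike.norm_conj, RCLike.norm_conj]
    exact mul_le_mul (mul_le_mul (h1 _) (h2 _) (norm_nonneg _) hM)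
      (mul_le_mul (h3 _) (h4 _) (norm_nonneg _) hM) (by positivity) (by positivity)
  have hWi : Integrable W ((ν.prod μ).prod (ρ.prod ρ)) := int_bdd hWm hWb
  have e1 : ∀ p : Y × X, Uav ρ f g p * (starRingEnd ℂ) (Uav ρ f' g' p) =
      ∫ q, W (p, q) ∂(ρ.prod ρ) := by
    intro p
    unfold Uav
    rw [← integral_conj, ← integral_prod_mul]
    rw [hW]
  have e2 : ∀ q : Z × Z, ∫ p, W (p, q) ∂(ν.prod μ) =
      (∫ y, (starRingEnd ℂ) (g (q.1, y)) * g' (q.2, y) ∂ν) *
        (∫ x, f (q.1, x) * (starRingEnd ℂ) (f' (q.2, x)) ∂μ) := by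
    intro q
    rw [← integral_prod_mul, hW]
    refine integral_congr_ae (Filter.Eventually.of_forall fun p => ?_)
    simp only [map_mul, Complex.conj_conj]
    ring
  calc ∫ p, Uav ρ f g p * (starRingEnd ℂ) (Uav ρ f' g' p) ∂(ν.prod μ) =
      ∫ p, ∫ q, W (p, q) ∂(ρ.prod ρ) ∂(ν.prod μ) :=
        integral_congr_ae (Filter.Eventually.of_forall e1)
    _ = ∫ q, ∫ p, W (p, q) ∂(ν.prod μ) ∂(ρ.prod ρ) := integral_integral_swap hWi
    _ = _ := integral_congr_ae (Filter.Eventually.of_forall e2)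

/-- the abstract large sieve for the averages -/
theorem lsk_abs (μ : Measure X) (ν : Measure Y) (ρ : Measure Z) [IsFiniteMeasure μ]
    [IsFiniteMeasure ν] [IsFiniteMeasure ρ] {ι : Type} [Fintype ι] [DecidableEq ι]
    {S : Set Y} (hS : MeasurableSet S) {K : Y × X → ℂ} (hK : Measurable K)
    {E : ENNReal} (hE : ∫⁻ y in S, ∫⁻ x, ENNReal.ofReal (‖K (y, x)‖ ^ 2) ∂μ ∂ν ≤ E)
    {f : ι → Z × X → ℂ} {g : ι → Z × Y → ℂ} (hf : ∀ i, Measurable (f i))
    (hg : ∀ i, Measurable (g i)) {M : ℝ} (hfM : ∀ i p, ‖f i p‖ ≤ M) (hgM : ∀ i p, ‖g i p‖ ≤ M)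
    {b : ι → ℂ} (hop : ∀ i z, ∀ y ∈ S, ∫ x, K (y, x) * f i (z, x) ∂μ = b i * g i (z, y))
    (horth : ∀ i j, i ≠ j → ∀ z z', ∫ x, f i (z, x) * (starRingEnd ℂ) (f j (z', x)) ∂μ = 0)
    {q : ι → ℝ} (hq0 : ∀ i, 0 < q i)
    (hq : ∀ i, ∫ p, ‖∫ y, (starRingEnd ℂ) (g i (p.1, y)) * g i (p.2, y) ∂ν‖ *
      ‖∫ x, f i (p.1, x) * (starRingEnd ℂ) (f i (p.2, x)) ∂μ‖ ∂(ρ.prod ρ) ≤ q i)
    {A : ι → ℝ} (hA0 : ∀ i, 0 ≤ A i)
    (hA : ∀ i, A i ≤ ∫ z, ∫ y in S, ‖g i (z, y)‖ ^ 2 ∂ν ∂ρ) :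
    ∑ i, ENNReal.ofReal (‖b i‖ ^ 2 * A i ^ 2 / q i) ≤ E := by
  by_cases htop : E = ⊤
  · rw [htop]
    exact le_top
  obtain ⟨U, hU⟩ : ∃ U : ι → Y × X → ℂ, U = fun i => Uav ρ (f i) (g i) := ⟨_, rfl⟩
  have hUm : ∀ i, Measurable (U i) := fun i => by
    rw [hU]
    exact uav_meas ρ (hf i) (hg i)
  have hUb : ∀ i p, ‖U i p‖ ≤ M * M * (ρ Set.univ).toReal := fun i p => by
    rw [hU]
    exact uav_bdd ρ (hfM i) (hgM i) p
  have hUL : ∀ i, MemLp (U i) 2 (ν.prod μ) := fun i =>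
    MemLp.of_bound (hUm i).aestronglyMeasurable _ (Filter.Eventually.of_forall (hUb i))
  have hUo : ∀ i j, i ≠ j → ∫ p, U i p * (starRingEnd ℂ) (U j p) ∂(ν.prod μ) = 0 := by
    intro i j hij
    rw [hU]
    simp only
    rw [uav_inner μ ν ρ (hf i) (hg i) (hf j) (hg j) (hfM i) (hgM i) (hfM j) (hgM j)]
    simp only [horth i j hij, mul_zero, integral_zero]
  have hUq : ∀ i, ∫⁻ p, ENNReal.ofReal (‖U i p‖ ^ 2) ∂(ν.prod μ) ≤ ENNReal.ofReal (q i) := by
    intro i
    have h1 : Integrable (fun p => ‖U i p‖ ^ 2) (ν.prod μ) :=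
      (memLp_two_iff_integrable_sq_norm (hUL i).1).1 (hUL i)
    rw [← ofReal_integral_eq_lintegral_ofReal h1
      (Filter.Eventually.of_forall fun x => by positivity)]
    refine ENNReal.ofReal_le_ofReal (le_trans ?_ (hq i))
    have h2 : ((∫ p, ‖U i p‖ ^ 2 ∂(ν.prod μ) : ℝ) : ℂ) =
        ∫ p, U i p * (starRingEnd ℂ) (U i p) ∂(ν.prod μ) := by
      rw [← integral_complex_ofReal]
      refine integral_congr_ae (Filter.Eventually.of_forall fun p => ?_)
      simp only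
      rw [Complex.mul_conj, Complex.normSq_eq_norm_sq]
    have h3 : ∫ p, ‖U i p‖ ^ 2 ∂(ν.prod μ) ≤
        ‖∫ p, U i p * (starRingEnd ℂ) (U i p) ∂(ν.prod μ)‖ := by
      rw [← h2, Complex.norm_real]
      exact le_abs_self _
    refine h3.trans ?_
    rw [hU]
    simp only
    rw [uav_inner μ ν ρ (hf i) (hg i) (hf i) (hg i) (hfM i) (hgM i) (hfM i) (hgM i)]
    refine (norm_integral_le_integral_norm _).trans (le_of_eq ?_)
    refine integral_congr_ae (Filter.Eventually.of_forall fun p => ?_)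
    simp only
    rw [norm_mul]
  -- the kernel
  obtain ⟨H, hH⟩ : ∃ H : Y × X → ℂ, H = (S ×ˢ Set.univ).indicator K := ⟨_, rfl⟩
  have hHm : Measurable H := by
    rw [hH]
    exact hK.indicator (hS.prod MeasurableSet.univ)
  have hH2 : ∫⁻ p, ENNReal.ofReal (‖H p‖ ^ 2) ∂(ν.prod μ) ≤ E := by
    refine le_trans (le_of_eq ?_) hE
    rw [lintegral_prod _ (by fun_prop), ← lintegral_indicator hS]
    refine lintegral_congr fun y => ?_
    by_cases hy : y ∈ S
    · rw [Set.indicator_of_mem hy]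
      refine lintegral_congr fun x => ?_
      rw [hH, Set.indicator_of_mem (show (y, x) ∈ S ×ˢ Set.univ from ⟨hy, trivial⟩)]
    · rw [Set.indicator_of_notMem hy]
      refine (lintegral_congr fun x => ?_).trans lintegral_zero
      rw [hH, Set.indicator_of_notMem (fun h => hy h.1)]
      simp
  have hHL : MemLp H 2 (ν.prod μ) := by
    rw [memLp_two_iff_integrable_sq_norm hHm.aestronglyMeasurable]
    refine ⟨(hHm.norm.pow_const 2).aestronglyMeasurable, ?_⟩
    refine lt_of_le_of_lt ?_ (lt_of_le_of_lt hH2 (lt_top_iff_ne_top.2 htop))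
    refine lintegral_mono fun z => ?_
    rw [← ofReal_norm, Real.norm_of_nonneg (by positivity)]
  have hH1 : Integrable H (ν.prod μ) := hHL.integrable (by norm_num)
  refine le_trans ?_ ((bessel_orth hUL q hq0 hUo hUq hHL).trans hH2)
  refine Finset.sum_le_sum fun i _ => ENNReal.ofReal_le_ofReal ?_
  refine div_le_div_of_nonneg_right ?_ (hq0 i).le
  -- the scalar product with the kernel
  obtain ⟨I, hI⟩ : ∃ I : ℝ, I = ∫ z, ∫ y in S, ‖g i (z, y)‖ ^ 2 ∂ν ∂ρ := ⟨_, rfl⟩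
  have hIA : A i ≤ I := by
    rw [hI]
    exact hA i
  have hmain : ∫ p, H p * U i p ∂(ν.prod μ) = b i * (I : ℂ) := by
    obtain ⟨W, hW⟩ : ∃ W : (Y × X) × Z → ℂ, W = fun r => H r.1 * (f i (r.2, r.1.2) *
        (starRingEnd ℂ) (g i (r.2, r.1.1))) := ⟨_, rfl⟩
    have b1 : Measurable (fun r : (Y × X) × Z => f i (r.2, r.1.2) *
        (starRingEnd ℂ) (g i (r.2, r.1.1))) := by
      have h2 : Measurable (fun q : (Y × X) × Z => f i (q.2, q.1.2)) := (hf i).comp (by fun_prop)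
      have h3 : Measurable (fun q : (Y × X) × Z => (starRingEnd ℂ) (g i (q.2, q.1.1))) :=
        Complex.continuous_conj.measurable.comp ((hg i).comp (by fun_prop))
      exact h2.mul h3
    have b2 : ∀ r : (Y × X) × Z, ‖f i (r.2, r.1.2) * (starRingEnd ℂ) (g i (r.2, r.1.1))‖ ≤
        M * M := by
      intro r
      rw [norm_mul, RCLike.norm_conj]
      exact mul_le_mul (hfM i _) (hgM i _) (norm_nonneg _) ((norm_nonneg _).trans (hfM i (r.2, r.1.2)))
    have hWi : Integrable W ((ν.prod μ).prod ρ) := by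
      rw [hW]
      have h2 : Integrable (fun r : (Y × X) × Z => H r.1) ((ν.prod μ).prod ρ) := hH1.comp_fst ρ
      exact h2.mul_bdd (c := M * M) b1.aestronglyMeasurable (Filter.Eventually.of_forall b2)
    have e1 : ∀ p : Y × X, H p * U i p = ∫ z, W (p, z) ∂ρ := by
      intro p
      rw [hU, hW]
      simp only
      unfold Uav
      rw [integral_const_mul]
    have e2 : ∀ z, ∫ p, W (p, z) ∂(ν.prod μ) = b i * ((∫ y in S, ‖g i (z, y)‖ ^ 2 ∂ν : ℝ) : ℂ) := by
      intro z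
      have h3 : Integrable (fun p : Y × X => W (p, z)) (ν.prod μ) := by
        rw [hW]
        refine hH1.mul_bdd (c := M * M) ?_ (Filter.Eventually.of_forall fun p => b2 (p, z))
        exact (b1.comp (measurable_prodMk_right : Measurable fun p : Y × X => (p, z))).aestronglyMeasurable
      rw [integral_prod _ h3]
      have h4 : ∀ y, ∫ x, W ((y, x), z) ∂μ =
          S.indicator (fun y => b i * ((‖g i (z, y)‖ ^ 2 : ℝ) : ℂ)) y := by
        intro y
        by_cases hy : y ∈ S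
        · rw [Set.indicator_of_mem hy]
          have h5 : ∀ x, W ((y, x), z) = (starRingEnd ℂ) (g i (z, y)) *
              (K (y, x) * f i (z, x)) := by
            intro x
            rw [hW, hH]
            simp only
            rw [Set.indicator_of_mem (show (y, x) ∈ S ×ˢ Set.univ from ⟨hy, trivial⟩)]
            ring
          simp only [h5]
          rw [integral_const_mul, hop i z y hy]
          have h6 : (starRingEnd ℂ) (g i (z, y)) * (b i * g i (z, y)) =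
              b i * (g i (z, y) * (starRingEnd ℂ) (g i (z, y))) := by ring
          rw [h6, Complex.mul_conj, Complex.normSq_eq_norm_sq]
        · rw [Set.indicator_of_notMem hy]
          refine (integral_congr_ae (Filter.Eventually.of_forall fun x => ?_)).trans
            (integral_zero _ _)
          rw [hW, hH]
          simp only
          rw [Set.indicator_of_notMem (fun h => hy h.1), zero_mul]
      simp only [h4]
      rw [integral_indicator hS, integral_const_mul, integral_complex_ofReal]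
    calc ∫ p, H p * U i p ∂(ν.prod μ) = ∫ p, ∫ z, W (p, z) ∂ρ ∂(ν.prod μ) :=
          integral_congr_ae (Filter.Eventually.of_forall e1)
      _ = ∫ z, ∫ p, W (p, z) ∂(ν.prod μ) ∂ρ := integral_integral_swap hWi
      _ = ∫ z, b i * ((∫ y in S, ‖g i (z, y)‖ ^ 2 ∂ν : ℝ) : ℂ) ∂ρ :=
          integral_congr_ae (Filter.Eventually.of_forall e2)
      _ = _ := by
          rw [integral_const_mul, integral_complex_ofReal, hI]
  rw [hmain, norm_mul, mul_pow, Complex.norm_real, Real.norm_eq_abs, sq_abs]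
  exact mul_le_mul_of_nonneg_left (pow_le_pow_left₀ (hA0 i) hIA 2) (by positivity)

end aver

end Pool.Agent.H31.GK
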