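import Pool.Agent.H31.GK.TG2
import Pool.Agent.H34.GM.Targets2

/-!
Board ghk (MP_52e316_nt): the functions `f` and `g` of the abstract inequality of Bessel.
-/

set_option autoImplicit false

namespace Pool.Agent.H31.GK

open MeasureTheory Pool.Agent.H34.GM Pool.Agent.H34.GZ Pool.Agent.H34.GU Pool.Agent.H34.GA

variable {m N : ℕ}

theorem sh_det (hm1 : 1 ≤ m) {z : V m} (hz : 1 ≤ aN (mt z)) : (mt z).det ≠ 0 := by
  intro h
  unfold aN at hz
  rw [h, abs_zero, Real.zero_rpow] at hz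
  · linarith
  · have : (0 : ℝ) < m := by exact_mod_cast hm1
    positivity

theorem inv_det_ne {w : Mat m} (hw : w.det ≠ 0) : (w⁻¹).det ≠ 0 := by
  rw [Matrix.det_nonsing_inv, Ring.inverse_eq_inv']
  exact inv_ne_zero hw

open Classical in
/-- extension by zero to the singular matrices -/
noncomputable def Ft (F : Mat m → VN m N → ℂ) (g : Mat m) (x : VN m N) : ℂ :=
  if g.det ≠ 0 then F g x else 0

theorem ft_of {F : Mat m → VN m N → ℂ} {g : Mat m} (hg : g.det ≠ 0) (x : VN m N) :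
    Ft F g x = F g x := by
  unfold Ft
  rw [if_pos hg]

theorem ft_zero {F : Mat m → VN m N → ℂ} {g : Mat m} (hg : g.det = 0) (x : VN m N) :
    Ft F g x = 0 := by
  unfold Ft
  rw [if_neg (not_not.2 hg)]

theorem ft_bd {F : Mat m → VN m N → ℂ} {B : ℝ} (hB0 : 0 ≤ B)
    (hB : ∀ g x, g.det ≠ 0 → ‖F g x‖ ≤ B) (g : Mat m) (x : VN m N) : ‖Ft F g x‖ ≤ B := by
  by_cases hg : g.det = 0
  · rw [ft_zero hg, norm_zero]
    exact hB0
  · rw [ft_of hg]
    exact hB g x hg

theorem det_meas : MeasurableSet {v : V m | (mt v).det ≠ 0} := by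
  have h1 : Continuous (fun v : V m => (mt v).det) := Continuous.matrix_det continuous_id
  exact (h1.isOpen_preimage _ isOpen_ne).measurableSet

theorem ft_meas {F : Mat m → VN m N → ℂ}
    (hF : ∀ x, ContinuousOn (fun g => F g x) {g | g.det ≠ 0}) (x : VN m N) :
    Measurable (fun v : V m => Ft F (mt v) x) := by
  classical
  have h1 : Measurable ({v : V m | (mt v).det ≠ 0}.piecewise (fun v => F (mt v) x)
      (fun _ => (0 : ℂ))) := by
    refine ContinuousOn.measurable_piecewise ?_ continuousOn_const det_meas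
    have hc : Continuous (fun z : V m => mt z) := continuous_id
    exact (hF x).comp hc.continuousOn (fun v hv => hv)
  have h2 : (fun v : V m => Ft F (mt v) x) = {v : V m | (mt v).det ≠ 0}.piecewise
      (fun v => F (mt v) x) (fun _ => (0 : ℂ)) := by
    funext v
    by_cases hv : (mt v).det = 0
    · have hv2 : v ∉ {v : V m | (mt v).det ≠ 0} := fun h => h hv
      rw [Set.piecewise_eq_of_notMem _ _ _ hv2, ft_zero hv]
    · rw [Set.piecewise_eq_of_mem _ _ _ hv, ft_of hv]
  rw [h2]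
  exact h1

/-- products of matrices -/
theorem mul_meas {α : Type} [MeasurableSpace α] {a b : α → V m} (ha : Measurable a)
    (hb : Measurable b) : Measurable (fun p => ((fun i j => (mt (a p) * mt (b p)) i j) : V m)) := by
  have hc : Continuous (fun q : V m × V m => ((fun i j => (mt q.1 * mt q.2) i j) : V m)) := by
    refine continuous_pi fun i => continuous_pi fun j => ?_
    simp only [Matrix.mul_apply, Matrix.of_apply]
    fun_prop
  exact hc.measurable.comp (ha.prodMk hb)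

/-- the translates -/
noncomputable def fz (F : Mat m → VN m N → ℂ) (p : V m × (V m × VN m N)) : ℂ :=
  Ft F (mt p.2.1 * mt p.1) p.2.2

theorem reass [MeasurableSpace (VN m N)] {β : Type} [MeasurableSpace β]
    [MeasurableSingletonClass (VN m N)] [NeZero N] {h : V m × (V m × VN m N) → β}
    (hh : ∀ x : VN m N, Measurable (fun q : V m × V m => h (q.1, (q.2, x)))) : Measurable h := by
  have h1 : Measurable (fun q : (V m × V m) × VN m N => h (q.1.1, (q.1.2, q.2))) :=
    measurable_from_prod_countable_left (fun x => hh x)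
  have h2 : Measurable (fun p : V m × (V m × VN m N) => (((p.1, p.2.1), p.2.2) :
      (V m × V m) × VN m N)) := by fun_prop
  exact h1.comp h2

theorem fz_meas [MeasurableSpace (VN m N)] [MeasurableSingletonClass (VN m N)] [NeZero N]
    {F : Mat m → VN m N → ℂ} (hF : ∀ x, ContinuousOn (fun g => F g x) {g | g.det ≠ 0}) :
    Measurable (fz F) := by
  refine reass fun x => ?_
  exact (ft_meas hF x).comp (mul_meas measurable_snd measurable_fst)

theorem fz_bd {F : Mat m → VN m N → ℂ} {B : ℝ} (hB0 : 0 ≤ B)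
    (hB : ∀ g x, g.det ≠ 0 → ‖F g x‖ ≤ B) (p : V m × (V m × VN m N)) : ‖fz F p‖ ≤ B :=
  ft_bd hB0 hB _ _

/-- their convolutions -/
noncomputable def gz (Φ : Mat m → ℂ) (F : Mat m → VN m N → ℂ) (p : V m × (V m × VN m N)) : ℂ :=
  Rr Φ 1 (trn (mt p.1) (Ft F)) (mt p.2.1) p.2.2

theorem phi_meas (hMSR : T_MSR) {Φ : Mat m → ℂ} (hΦ : Continuous Φ) :
    Measurable (fun u : V m => Φ (((1 : ℝ)⁻¹ * (aN (mt u))⁻¹) • mt u)) := by
  have ha : Measurable (fun z : V m => aN (mt z)) := (hMSR.1 m).2.2.1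
  have hc : Measurable (fun v : V m => Φ (mt v)) := (hMSR.1 m).2.2.2.2.2.2.2 Φ hΦ
  have h1 : Measurable (fun u : V m => ((1 : ℝ)⁻¹ * (aN (mt u))⁻¹) • u) := by
    exact (measurable_const.mul ha.inv).smul measurable_id
  exact hc.comp h1

theorem gz_meas (hMSR : T_MSR) [MeasurableSpace (VN m N)] [MeasurableSingletonClass (VN m N)]
    [NeZero N] {Φ : Mat m → ℂ} (hΦ : Continuous Φ) {F : Mat m → VN m N → ℂ}
    (hF : ∀ x, ContinuousOn (fun g => F g x) {g | g.det ≠ 0}) : Measurable (gz Φ F) := by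
  have hsf : SigmaFinite (hm m) := (hMSR.1 m).2.2.2.2.1
  have hinv := (hMSR.1 m).1
  refine reass fun x => ?_
  have h1 : Measurable (fun q : (V m × V m) × V m =>
      Φ (((1 : ℝ)⁻¹ * (aN (mt q.2))⁻¹) • mt q.2) *
        Ft F (mt q.1.2 * (mt q.2)⁻¹ * mt q.1.1) x) := by
    refine ((phi_meas hMSR hΦ).comp measurable_snd).mul ?_
    have a1 : Measurable (fun q : (V m × V m) × V m =>
        ((fun i j => ((mt q.2)⁻¹ : Mat m) i j) : V m)) := hinv.comp measurable_snd
    have a2 : Measurable (fun q : (V m × V m) × V m =>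
        ((fun i j => (mt q.1.2 * (mt q.2)⁻¹) i j) : V m)) :=
      mul_meas (measurable_snd.comp measurable_fst) a1
    exact (ft_meas hF x).comp (mul_meas a2 (measurable_fst.comp measurable_fst))
  exact (h1.stronglyMeasurable.integral_prod_right (ν := (hm m).restrict (Shell m))).measurable

theorem gz_of (hm1 : 1 ≤ m) (hMSR : T_MSR) {Φ : Mat m → ℂ} {F : Mat m → VN m N → ℂ} {z g : V m}
    (hz : (mt z).det ≠ 0) (hg : (mt g).det ≠ 0) (x : VN m N) :
    gz Φ F (z, (g, x)) = Rr Φ 1 (trn (mt z) F) (mt g) x := by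
  unfold gz Rr trn
  refine setIntegral_congr_fun (hMSR.1 m).2.2.2.2.2.1 fun u hu => ?_
  have hud : (mt u).det ≠ 0 := sh_det hm1 hu.1
  have h1 : (mt g * (mt u)⁻¹ * mt z).det ≠ 0 := by
    rw [Matrix.det_mul, Matrix.det_mul]
    exact mul_ne_zero (mul_ne_zero hg (inv_det_ne hud)) hz
  simp only
  rw [ft_of h1]

theorem gz_zero {Φ : Mat m → ℂ} {F : Mat m → VN m N → ℂ} {z g : V m}
    (h : (mt z).det = 0 ∨ (mt g).det = 0) (x : VN m N) : gz Φ F (z, (g, x)) = 0 := by
  unfold gz Rr trn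
  have h1 : ∀ u : V m, (mt g * (mt u)⁻¹ * mt z).det = 0 := by
    intro u
    rw [Matrix.det_mul, Matrix.det_mul]
    rcases h with h | h
    · rw [h, mul_zero]
    · rw [h, zero_mul, zero_mul]
  refine (integral_congr_ae (Filter.Eventually.of_forall fun u => ?_)).trans (integral_zero _ _)
  simp only
  rw [ft_zero (h1 u), mul_zero]

theorem fz_of {F : Mat m → VN m N → ℂ} {z g : V m} (hz : (mt z).det ≠ 0) (hg : (mt g).det ≠ 0)
    (x : VN m N) : fz F (z, (g, x)) = F (mt g * mt z) x := by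
  unfold fz
  refine ft_of ?_ x
  rw [Matrix.det_mul]
  exact mul_ne_zero hg hz

theorem fz_zero {F : Mat m → VN m N → ℂ} {z g : V m} (hz : (mt z).det = 0)
    (x : VN m N) : fz F (z, (g, x)) = 0 := by
  unfold fz
  refine ft_zero ?_ x
  rw [Matrix.det_mul, hz, mul_zero]

theorem gz_bd {Φ : Mat m → ℂ} {F : Mat m → VN m N → ℂ} {B t : ℝ} (hB0 : 0 ≤ B)
    (hB : ∀ g x, g.det ≠ 0 → ‖F g x‖ ≤ B) (ht : 0 ≤ t) (hL : L1 Φ 1 ≤ ENNReal.ofReal t)
    (p : V m × (V m × VN m N)) : ‖gz Φ F p‖ ≤ t * B := by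
  have h1 : ENNReal.ofReal ‖gz Φ F p‖ ≤ ENNReal.ofReal (t * B) := by
    rw [ofReal_norm]
    unfold gz Rr trn
    refine (enorm_integral_le_lintegral_enorm _).trans ?_
    rw [ENNReal.ofReal_mul ht]
    refine le_trans ?_ (mul_le_mul' hL le_rfl)
    unfold L1
    rw [← lintegral_mul_const' _ _ ENNReal.ofReal_ne_top]
    refine lintegral_mono fun u => ?_
    rw [enorm_mul, ofReal_norm]
    refine mul_le_mul' le_rfl ?_
    rw [← ofReal_norm]
    exact ENNReal.ofReal_le_ofReal (ft_bd hB0 hB _ _)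
  exact (ENNReal.ofReal_le_ofReal_iff (mul_nonneg ht hB0)).1 h1

end Pool.Agent.H31.GK
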